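import Mathlib

open scoped Pointwise
open Filter

namespace Pool.Agent.Results.MP_fd999f_co.NoCapture

/-! ### Sets `A` with `AA + 1` pairwise coprime -/

/-- all numbers `ab + 1` with `a, b` in `A` are pairwise coprime -/
def Cop (A : Finset ℕ) : Prop :=
  ∀ a ∈ A, ∀ b ∈ A, ∀ c ∈ A, ∀ d ∈ A, s(a, b) ≠ s(c, d) → Nat.Coprime (a * b + 1) (c * d + 1)

lemma not_dvd_succ {p x c : ℕ} (hp : p.Prime) (h : p ∣ x) : ¬ p ∣ c * x + 1 := by
  intro h2
  have h3 : p ∣ 1 := (Nat.dvd_add_right (Dvd.dvd.mul_left h c)).1 h2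
  exact hp.one_lt.ne' (Nat.dvd_one.1 h3)

lemma exists_extend (A : Finset ℕ) (hA : Cop A) :
    ∃ x, x ∉ A ∧ 0 < x ∧ Cop (insert x A) := by
  classical
  set M : ℕ := (∏ a ∈ A, ∏ b ∈ A, (a * b + 1)) *
    ∏ a ∈ A, ∏ b ∈ A, (if a = b then 1 else ((a : ℤ) - b).natAbs) with hM
  set x : ℕ := M * (A.sup id + 1) with hx
  have hMpos : 0 < M := by
    rw [hM]
    refine Nat.mul_pos (Finset.prod_pos fun a _ => Finset.prod_pos fun b _ => by positivity)
      (Finset.prod_pos fun a _ => Finset.prod_pos fun b _ => ?_)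
    split_ifs with h
    · exact one_pos
    · rw [Int.natAbs_pos, sub_ne_zero]
      exact_mod_cast h
  have hxA : ∀ a ∈ A, a < x := by
    intro a ha
    have h1 : a ≤ A.sup id := Finset.le_sup (f := id) ha
    calc a < A.sup id + 1 := by omega
      _ ≤ M * (A.sup id + 1) := Nat.le_mul_of_pos_left _ hMpos
  have hd1 : ∀ a ∈ A, ∀ b ∈ A, a * b + 1 ∣ x := by
    intro a ha b hb
    refine Dvd.dvd.mul_right ?_ _
    rw [hM]
    refine Dvd.dvd.mul_right ?_ _
    exact (Finset.dvd_prod_of_mem (fun b => a * b + 1) hb).trans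
      (Finset.dvd_prod_of_mem (fun a => ∏ b ∈ A, (a * b + 1)) ha)
  have hd2 : ∀ a ∈ A, ∀ b ∈ A, a ≠ b → ((a : ℤ) - b).natAbs ∣ x := by
    intro a ha b hb hab
    refine Dvd.dvd.mul_right ?_ _
    rw [hM]
    refine Dvd.dvd.mul_left ?_ _
    have h1 := Finset.dvd_prod_of_mem
      (fun b => (if a = b then 1 else ((a : ℤ) - b).natAbs)) hb
    simp only [if_neg hab] at h1
    exact h1.trans (Finset.dvd_prod_of_mem
      (fun a => ∏ b ∈ A, (if a = b then 1 else ((a : ℤ) - b).natAbs)) ha)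
  refine ⟨x, fun h => lt_irrefl _ (hxA x h), Nat.mul_pos hMpos (Nat.succ_pos _), ?_⟩
  -- the three types of new pairs
  have c1 : ∀ a ∈ A, ∀ b ∈ A, ∀ c : ℕ, Nat.Coprime (a * b + 1) (c * x + 1) := by
    intro a ha b hb c
    refine Nat.Coprime.symm (Nat.Coprime.coprime_dvd_right (hd1 a ha b hb) ?_)
    rw [Nat.coprime_comm, Nat.coprime_mul_right_add_right]
    exact Nat.coprime_one_right x
  have c2 : ∀ a ∈ A, ∀ c ∈ A, a ≠ c → Nat.Coprime (a * x + 1) (c * x + 1) := by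
    intro a ha c hc hac
    refine Nat.Coprime.symm ?_
    rw [Nat.coprime_iff_gcd_eq_one]
    by_contra hne
    obtain ⟨p, hp, hpd⟩ := Nat.exists_prime_and_dvd hne
    have h1 : p ∣ c * x + 1 := hpd.trans (Nat.gcd_dvd_left _ _)
    have h2 : p ∣ a * x + 1 := hpd.trans (Nat.gcd_dvd_right _ _)
    have hpx : ¬ p ∣ x := fun h => not_dvd_succ hp h h1
    have h3 : (p : ℤ) ∣ ((a : ℤ) - c) * x := by
      have h1' : (p : ℤ) ∣ (c : ℤ) * x + 1 := by exact_mod_cast h1
      have h2' : (p : ℤ) ∣ (a : ℤ) * x + 1 := by exact_mod_cast h2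
      have := dvd_sub h2' h1'
      have e : (a : ℤ) * x + 1 - (c * x + 1) = ((a : ℤ) - c) * x := by ring
      rwa [e] at this
    have hpZ : Prime (p : ℤ) := Nat.prime_iff_prime_int.1 hp
    rcases hpZ.dvd_or_dvd h3 with h4 | h4
    · have h5 : p ∣ ((a : ℤ) - c).natAbs := Int.natCast_dvd.1 h4
      exact hpx (h5.trans (hd2 a ha c hc hac))
    · exact hpx (by exact_mod_cast h4)
  have c3 : ∀ a ∈ A, Nat.Coprime (a * x + 1) (x * x + 1) := by
    intro a ha
    rw [Nat.coprime_iff_gcd_eq_one]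
    by_contra hne
    obtain ⟨p, hp, hpd⟩ := Nat.exists_prime_and_dvd hne
    have h1 : p ∣ a * x + 1 := hpd.trans (Nat.gcd_dvd_left _ _)
    have h2 : p ∣ x * x + 1 := hpd.trans (Nat.gcd_dvd_right _ _)
    have hpx : ¬ p ∣ x := fun h => not_dvd_succ hp h h1
    have hpZ : Prime (p : ℤ) := Nat.prime_iff_prime_int.1 hp
    have h1' : (p : ℤ) ∣ (a : ℤ) * x + 1 := by exact_mod_cast h1
    have h2' : (p : ℤ) ∣ (x : ℤ) * x + 1 := by exact_mod_cast h2
    have h3 : (p : ℤ) ∣ ((x : ℤ) - a) * x := by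
      have := dvd_sub h2' h1'
      have e : (x : ℤ) * x + 1 - (a * x + 1) = ((x : ℤ) - a) * x := by ring
      rwa [e] at this
    rcases hpZ.dvd_or_dvd h3 with h4 | h4
    · have h5 : (p : ℤ) ∣ (a : ℤ) * a + 1 := by
        have := dvd_sub h1' (Dvd.dvd.mul_left h4 (a : ℤ))
        have e : (a : ℤ) * x + 1 - a * (x - a) = a * a + 1 := by ring
        rwa [e] at this
      have h6 : p ∣ a * a + 1 := by exact_mod_cast h5
      exact hpx (h6.trans (hd1 a ha a ha))
    · exact hpx (by exact_mod_cast h4)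
  -- a uniform description
  intro a ha b hb c hc d hd hne
  rw [Finset.mem_insert] at ha hb hc hd
  have key : ∀ a b : ℕ, (a = x ∨ a ∈ A) → (b = x ∨ b ∈ A) →
      (a ∈ A ∧ b ∈ A) ∨ (∃ e ∈ A, s(a, b) = s(e, x) ∧ a * b = e * x) ∨
        (s(a, b) = s(x, x) ∧ a * b = x * x) := by
    intro a b ha hb
    rcases ha with rfl | ha <;> rcases hb with rfl | hb
    · right; right; exact ⟨rfl, rfl⟩
    · right; left; exact ⟨b, hb, Sym2.eq_swap, mul_comm _ _⟩
    · right; left; exact ⟨a, ha, rfl, rfl⟩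
    · left; exact ⟨ha, hb⟩
  rcases key a b ha hb with ⟨ha', hb'⟩ | ⟨e, he, hs, hm⟩ | ⟨hs, hm⟩ <;>
    rcases key c d hc hd with ⟨hc', hd'⟩ | ⟨f, hf, hs', hm'⟩ | ⟨hs', hm'⟩
  · exact hA a ha' b hb' c hc' d hd' hne
  · rw [hm']; exact c1 a ha' b hb' f
  · rw [hm']; exact c1 a ha' b hb' x
  · rw [hm]; exact (c1 c hc' d hd' e).symm
  · rw [hm, hm']
    refine c2 e he f hf ?_
    rintro rfl
    exact hne (hs.trans hs'.symm)
  · rw [hm, hm']; exact c3 e he
  · rw [hm]; exact (c1 c hc' d hd' x).symm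
  · rw [hm, hm']; exact (c3 f hf).symm
  · exact absurd (hs.trans hs'.symm) hne

lemma exists_cop (k : ℕ) : ∃ A : Finset ℕ, A.card = k ∧ (∀ a ∈ A, 0 < a) ∧ Cop A := by
  induction k with
  | zero => exact ⟨∅, rfl, by simp, by intro a ha; simp at ha⟩
  | succ k ih =>
    obtain ⟨A, hk, hpos, hA⟩ := ih
    obtain ⟨x, hx, hx0, hcop⟩ := exists_extend A hA
    refine ⟨insert x A, by rw [Finset.card_insert_of_notMem hx, hk], ?_, hcop⟩
    intro a ha
    rcases Finset.mem_insert.1 ha with rfl | ha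
    · exact hx0
    · exact hpos a ha

/-! ### Private primes force many products -/

lemma card_inter_le (T : Finset ℕ) (f p : ℕ → ℕ) (hp : ∀ s ∈ T, (p s).Prime)
    (hpf : ∀ s ∈ T, p s ∣ f s) (hpriv : ∀ s ∈ T, ∀ t ∈ T, t ≠ s → ¬ p s ∣ f t)
    (hf : ∀ s ∈ T, f s ≠ 0) {e e' : ℕ} (he : e ≠ 0) (he' : e' ≠ 0) (hee : e ≠ e') :
    (((T.image f).image (e * ·)) ∩ ((T.image f).image (e' * ·))).card ≤ 1 := by
  rw [Finset.card_le_one]
  intro v hv w hw
  simp only [Finset.mem_inter, Finset.mem_image, exists_exists_and_eq_and] at hv hw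
  obtain ⟨⟨s, hs, hvs⟩, ⟨s', hs', hvs'⟩⟩ := hv
  obtain ⟨⟨t, ht, hwt⟩, ⟨t', ht', hwt'⟩⟩ := hw
  have hss' : s' ≠ s := by
    rintro rfl
    exact hee (Nat.eq_of_mul_eq_mul_right (Nat.pos_of_ne_zero (hf _ hs)) (hvs.trans hvs'.symm))
  by_contra hvw
  have hst : t ≠ s := by
    rintro rfl
    exact hvw (hvs.symm.trans hwt)
  have e1 := congrArg (fun n => n.factorization (p s)) (hvs.trans hvs'.symm)
  have e2 := congrArg (fun n => n.factorization (p s)) (hwt.trans hwt'.symm)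
  simp only [Nat.factorization_mul he (hf _ hs), Nat.factorization_mul he' (hf _ hs'),
    Nat.factorization_mul he (hf _ ht), Nat.factorization_mul he' (hf _ ht'),
    Finsupp.add_apply] at e1 e2
  have h1 : 0 < (f s).factorization (p s) :=
    (hp s hs).factorization_pos_of_dvd (hf s hs) (hpf s hs)
  have h2 : (f s').factorization (p s) = 0 :=
    Nat.factorization_eq_zero_of_not_dvd (hpriv s hs s' hs' hss')
  have h3 : (f t).factorization (p s) = 0 :=
    Nat.factorization_eq_zero_of_not_dvd (hpriv s hs t ht hst)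
  omega

lemma card_mul_ge (T : Finset ℕ) (f p : ℕ → ℕ) (hp : ∀ s ∈ T, (p s).Prime)
    (hpf : ∀ s ∈ T, p s ∣ f s) (hpriv : ∀ s ∈ T, ∀ t ∈ T, t ≠ s → ¬ p s ∣ f t)
    (hf : ∀ s ∈ T, f s ≠ 0) (E : Finset ℕ) (hE : ∀ e ∈ E, e ≠ 0) :
    E.card * T.card ≤ (E * T.image f).card + E.card ^ 2 := by
  classical
  have hinj : Set.InjOn f T := by
    intro s hs t ht hst
    by_contra hne
    exact hpriv s hs t ht (fun h => hne h.symm) (hst ▸ hpf s hs)
  have hcardT : (T.image f).card = T.card := Finset.card_image_of_injOn hinj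
  induction E using Finset.induction_on with
  | empty => simp
  | insert e E he ih =>
    have ih' := ih (fun e' he' => hE e' (Finset.mem_insert_of_mem he'))
    have he0 : e ≠ 0 := hE e (Finset.mem_insert_self _ _)
    have h1 : (insert e E) * T.image f = (T.image f).image (e * ·) ∪ E * T.image f := by
      rw [Finset.insert_eq, Finset.union_mul, Finset.singleton_mul]
      rfl
    have h2 : ((T.image f).image (e * ·)).card = T.card := by
      rw [Finset.card_image_of_injective _ (fun a b h => Nat.eq_of_mul_eq_mul_left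
        (Nat.pos_of_ne_zero he0) h), hcardT]
    have h3 : (((T.image f).image (e * ·)) ∩ (E * T.image f)).card ≤ E.card := by
      have hsub : ((T.image f).image (e * ·)) ∩ (E * T.image f) ⊆
          E.biUnion (fun e' => ((T.image f).image (e * ·)) ∩ ((T.image f).image (e' * ·))) := by
        intro v hv
        rw [Finset.mem_inter] at hv
        obtain ⟨e', he', w, hw, hv2⟩ := Finset.mem_mul.1 hv.2
        rw [Finset.mem_biUnion]
        exact ⟨e', he', Finset.mem_inter.2 ⟨hv.1, Finset.mem_image.2 ⟨w, hw, hv2⟩⟩⟩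
      refine (Finset.card_le_card hsub).trans (Finset.card_biUnion_le.trans ?_)
      have : ∑ u ∈ E, (((T.image f).image (e * ·)) ∩ ((T.image f).image (u * ·))).card ≤
          ∑ _u ∈ E, 1 := by
        refine Finset.sum_le_sum (fun u hu => ?_)
        refine card_inter_le T f p hp hpf hpriv hf he0 (hE u (Finset.mem_insert_of_mem hu)) ?_
        rintro rfl
        exact he hu
      simpa using this
    have h4 := Finset.card_union_add_card_inter ((T.image f).image (e * ·)) (E * T.image f)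
    rw [h1, Finset.card_insert_of_notMem he]
    have h5 : (E.card + 1) ^ 2 = E.card ^ 2 + 2 * E.card + 1 := by ring
    rw [h5, add_mul, one_mul]
    omega

/-- one-sided capture bound -/
lemma one_side (G E F : Finset ℕ) (m : ℕ) (e f p : ℕ → ℕ)
    (hG : ∀ s ∈ G, f s ∈ F ∧ e s * f s = s ∧ (p s).Prime ∧ p s ∣ f s)
    (hG1 : ∀ s ∈ G, s ≠ 0)
    (hcop : ∀ s ∈ G, ∀ t ∈ G, s ≠ t → Nat.Coprime s t)
    (hm : m + 1 ≤ E.card) :
    m * G.card ≤ (E * F).card + m ^ 2 := by
  classical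
  have hEz : m ≤ (E.erase 0).card := by
    have := Finset.pred_card_le_card_erase (s := E) (a := 0)
    omega
  obtain ⟨E', hE'sub, hE'card⟩ := Finset.exists_subset_card_eq hEz
  have hfs : ∀ s ∈ G, f s ∣ s := fun s hs => Dvd.intro_left (e s) (hG s hs).2.1
  have h := card_mul_ge G f p (fun s hs => (hG s hs).2.2.1) (fun s hs => (hG s hs).2.2.2)
    (by
      intro s hs t ht hts hd
      have h1 : p s ∣ s := (hG s hs).2.2.2.trans (hfs s hs)
      have h2 : p s ∣ t := hd.trans (hfs t ht)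
      have h3 : p s ∣ Nat.gcd s t := Nat.dvd_gcd h1 h2
      rw [hcop s hs t ht (fun h => hts h.symm)] at h3
      exact (hG s hs).2.2.1.one_lt.ne' (Nat.dvd_one.1 h3))
    (by
      intro s hs h0
      apply hG1 s hs
      rw [← (hG s hs).2.1, h0, mul_zero]) E'
    (fun e' he' => (Finset.mem_erase.1 (hE'sub he')).1)
  rw [hE'card] at h
  have hsub : E' * G.image f ⊆ E * F := by
    refine Finset.mul_subset_mul (fun x hx => (Finset.mem_erase.1 (hE'sub hx)).2) ?_
    intro x hx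
    obtain ⟨s, hs, rfl⟩ := Finset.mem_image.1 hx
    exact (hG s hs).1
  have := Finset.card_le_card hsub
  omega

/-- two-sided capture bound -/
lemma two_side (S E F : Finset ℕ) (m : ℕ) (hS1 : ∀ s ∈ S, 1 < s)
    (hcop : ∀ s ∈ S, ∀ t ∈ S, s ≠ t → Nat.Coprime s t)
    (hmE : m + 1 ≤ E.card) (hmF : m + 1 ≤ F.card) :
    m * (S ∩ (E * F)).card ≤ 2 * ((E * F).card + m ^ 2) := by
  classical
  set G := S ∩ (E * F) with hG
  have hex : ∀ s : ℕ, ∃ q : ℕ × ℕ, s ∈ G → q.1 ∈ E ∧ q.2 ∈ F ∧ q.1 * q.2 = s := by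
    intro s
    by_cases hs : s ∈ G
    · obtain ⟨e, he, f, hf, h⟩ := Finset.mem_mul.1 (Finset.mem_inter.1 hs).2
      exact ⟨(e, f), fun _ => ⟨he, hf, h⟩⟩
    · exact ⟨(0, 0), fun h => absurd h hs⟩
  choose q hq using hex
  have hprime : ∀ s ∈ G, (s.minFac).Prime := fun s hs =>
    Nat.minFac_prime (hS1 s (Finset.mem_inter.1 hs).1).ne'
  set GF := G.filter (fun s => s.minFac ∣ (q s).2) with hGF
  set GE := G.filter (fun s => ¬ s.minFac ∣ (q s).2) with hGE
  have hcard : GF.card + GE.card = G.card := Finset.card_filter_add_card_filter_not _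
  have hGmem : ∀ s ∈ G, s ≠ 0 := fun s hs => by
    have := hS1 s (Finset.mem_inter.1 hs).1; omega
  have hGcop : ∀ s ∈ G, ∀ t ∈ G, s ≠ t → Nat.Coprime s t := fun s hs t ht =>
    hcop s (Finset.mem_inter.1 hs).1 t (Finset.mem_inter.1 ht).1
  have h1 : m * GF.card ≤ (E * F).card + m ^ 2 := by
    refine one_side GF E F m (fun s => (q s).1) (fun s => (q s).2) Nat.minFac ?_ ?_ ?_ hmE
    · intro s hs
      rw [hGF, Finset.mem_filter] at hs
      exact ⟨(hq s hs.1).2.1, (hq s hs.1).2.2, hprime s hs.1, hs.2⟩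
    · intro s hs; exact hGmem s (Finset.mem_filter.1 hs).1
    · intro s hs t ht; exact hGcop s (Finset.mem_filter.1 hs).1 t (Finset.mem_filter.1 ht).1
  have h2 : m * GE.card ≤ (F * E).card + m ^ 2 := by
    refine one_side GE F E m (fun s => (q s).2) (fun s => (q s).1) Nat.minFac ?_ ?_ ?_ hmF
    · intro s hs
      rw [hGE, Finset.mem_filter] at hs
      have h3 := hq s hs.1
      refine ⟨h3.1, by rw [mul_comm]; exact h3.2.2, hprime s hs.1, ?_⟩
      have h4 : s.minFac ∣ (q s).1 * (q s).2 := by rw [h3.2.2]; exact Nat.minFac_dvd s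
      rcases (hprime s hs.1).dvd_mul.1 h4 with h5 | h5
      · exact h5
      · exact absurd h5 hs.2
    · intro s hs; exact hGmem s (Finset.mem_filter.1 hs).1
    · intro s hs t ht; exact hGcop s (Finset.mem_filter.1 hs).1 t (Finset.mem_filter.1 ht).1
  rw [mul_comm F E] at h2
  have h3 : m * G.card = m * GF.card + m * GE.card := by rw [← hcard]; ring
  omega

/-- For all `c₃, c₄, δ > 0` there are arbitrarily large finite sets `A` of positive integers such
that, with `n = |AA|`, no finite sets `E, F` of natural numbers satisfy `|E| ≥ n^δ`, `|F| ≥ n^δ`,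
`|EF| ≤ c₃ n` and `|(AA + 1) ∩ EF| ≥ c₄ n`. -/
theorem finset_version (c₃ c₄ δ : ℝ) (_ : 0 < c₃) (h4 : 0 < c₄) (hδ : 0 < δ) (N : ℕ) :
    ∃ A : Finset ℕ, (∀ a ∈ A, 0 < a) ∧ N ≤ A.card ∧ N ≤ (A * A).card ∧
      ∀ E F : Finset ℕ,
        ¬ (((A * A).card : ℝ) ^ δ ≤ E.card ∧ ((A * A).card : ℝ) ^ δ ≤ F.card ∧
            ((E * F).card : ℝ) ≤ c₃ * (A * A).card ∧
            c₄ * (A * A).card ≤ (((A * A).image (· + 1) ∩ (E * F)).card : ℝ)) := by
  obtain ⟨m, hm⟩ := exists_nat_gt (2 * c₃ / c₄)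
  have hm' : 2 * c₃ < m * c₄ := by rwa [div_lt_iff₀ h4] at hm
  have hev : ∀ᶠ n : ℕ in atTop, ((m : ℝ) + 1 ≤ (n : ℝ) ^ δ) ∧
      2 * (m : ℝ) ^ 2 < n * (m * c₄ - 2 * c₃) := by
    have t1 : Tendsto (fun n : ℕ => (n : ℝ) ^ δ) atTop atTop :=
      (tendsto_rpow_atTop hδ).comp tendsto_natCast_atTop_atTop
    have t2 : Tendsto (fun n : ℕ => (n : ℝ) * (m * c₄ - 2 * c₃)) atTop atTop :=
      tendsto_natCast_atTop_atTop.atTop_mul_const (by linarith)
    exact (t1.eventually_ge_atTop _).and (t2.eventually_gt_atTop _)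
  obtain ⟨n0, hn0⟩ := eventually_atTop.1 hev
  obtain ⟨A, hA, hpos, hcop⟩ := exists_cop (max (max N n0) 1)
  have hAne : A.Nonempty := by
    rw [← Finset.card_pos, hA]
    exact lt_of_lt_of_le one_pos (le_max_right _ _)
  obtain ⟨a0, ha0⟩ := hAne
  have hcardge : A.card ≤ (A * A).card := by
    have : (A.image (a0 * ·)).card ≤ (A * A).card := by
      refine Finset.card_le_card ?_
      intro x hx
      obtain ⟨a, ha, rfl⟩ := Finset.mem_image.1 hx
      exact Finset.mul_mem_mul ha0 ha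
    rwa [Finset.card_image_of_injective _ (fun a b h => Nat.eq_of_mul_eq_mul_left
        (hpos a0 ha0) h)] at this
  have hN : N ≤ A.card := by rw [hA]; exact (le_max_left _ _).trans (le_max_left _ _)
  have hn : n0 ≤ (A * A).card := by
    refine le_trans ?_ hcardge
    rw [hA]; exact (le_max_right _ _).trans (le_max_left _ _)
  refine ⟨A, hpos, hN, hN.trans hcardge, ?_⟩
  rintro E F ⟨hE, hF, hEF, hcap⟩
  obtain ⟨hn1, hn2⟩ := hn0 _ hn
  have hmE : m + 1 ≤ E.card := by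
    have : (m : ℝ) + 1 ≤ E.card := hn1.trans hE
    exact_mod_cast this
  have hmF : m + 1 ≤ F.card := by
    have : (m : ℝ) + 1 ≤ F.card := hn1.trans hF
    exact_mod_cast this
  have hS1 : ∀ s ∈ (A * A).image (· + 1), 1 < s := by
    intro s hs
    obtain ⟨t, ht, rfl⟩ := Finset.mem_image.1 hs
    obtain ⟨a, ha, b, hb, rfl⟩ := Finset.mem_mul.1 ht
    have := Nat.mul_pos (hpos a ha) (hpos b hb)
    omega
  have hScop : ∀ s ∈ (A * A).image (· + 1), ∀ t ∈ (A * A).image (· + 1), s ≠ t →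
      Nat.Coprime s t := by
    intro s hs t ht hst
    obtain ⟨s', hs', rfl⟩ := Finset.mem_image.1 hs
    obtain ⟨t', ht', rfl⟩ := Finset.mem_image.1 ht
    obtain ⟨a, ha, b, hb, rfl⟩ := Finset.mem_mul.1 hs'
    obtain ⟨c, hc, d, hd, rfl⟩ := Finset.mem_mul.1 ht'
    refine hcop a ha b hb c hc d hd ?_
    intro h
    apply hst
    rw [Sym2.eq_iff] at h
    rcases h with ⟨rfl, rfl⟩ | ⟨rfl, rfl⟩
    · rfl
    · rw [mul_comm]
  have hmain := two_side _ E F m hS1 hScop hmE hmF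
  have hmainR : (m : ℝ) * (((A * A).image (· + 1) ∩ (E * F)).card : ℝ) ≤
      2 * (((E * F).card : ℝ) + (m : ℝ) ^ 2) := by exact_mod_cast hmain
  have hm0 : (0 : ℝ) ≤ m := Nat.cast_nonneg m
  nlinarith [mul_le_mul_of_nonneg_left hcap hm0]

/-- `|X| ≥ t` for a possibly infinite set `X` of natural numbers. -/
def AtLeast (X : Set ℕ) (t : ℝ) : Prop := X.Infinite ∨ t ≤ X.ncard

/-- `|X| ≤ t` (in particular `X` is finite). -/
def AtMost (X : Set ℕ) (t : ℝ) : Prop := X.Finite ∧ (X.ncard : ℝ) ≤ t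

/-- The four conditions of the question: with `n = |AA|`,
`|E| ≥ n^δ`, `|F| ≥ n^δ`, `|EF| ≤ c₃ n` and `|(AA + 1) ∩ EF| ≥ c₄ n`. -/
def Captures (c₃ c₄ δ : ℝ) (A : Finset ℕ) (E F : Set ℕ) : Prop :=
  AtLeast E (((A * A).card : ℝ) ^ δ) ∧ AtLeast F (((A * A).card : ℝ) ^ δ) ∧
    AtMost (E * F) (c₃ * (A * A).card) ∧
    c₄ * (A * A).card ≤ ((((A * A).image (· + 1) : Finset ℕ) : Set ℕ) ∩ (E * F)).ncard

/-- For all `c₃, c₄, δ > 0` there are arbitrarily large finite sets `A` of positive integers (with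
`n = |AA|` arbitrarily large as well) such that no sets `E, F` of natural numbers, finite or
infinite, satisfy the four conditions. -/
theorem result (c₃ c₄ δ : ℝ) (h3 : 0 < c₃) (h4 : 0 < c₄) (hδ : 0 < δ) (N : ℕ) :
    ∃ A : Finset ℕ, (∀ a ∈ A, 0 < a) ∧ N ≤ A.card ∧ N ≤ (A * A).card ∧
      ∀ E F : Set ℕ, ¬ Captures c₃ c₄ δ A E F := by
  classical
  obtain ⟨A, hpos, hN1, hN2, hA⟩ := finset_version c₃ c₄ δ h3 h4 hδ (max N 1)
  refine ⟨A, hpos, (le_max_left _ _).trans hN1, (le_max_left _ _).trans hN2, ?_⟩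
  rintro E F ⟨hE, hF, ⟨hfin, hEF⟩, hcap⟩
  have hn : 0 < (A * A).card := lt_of_lt_of_le one_pos ((le_max_right _ _).trans hN2)
  have hcap0 : 0 < ((((A * A).image (· + 1) : Finset ℕ) : Set ℕ) ∩ (E * F)).ncard := by
    have : (0 : ℝ) < ((((A * A).image (· + 1) : Finset ℕ) : Set ℕ) ∩ (E * F)).ncard :=
      lt_of_lt_of_le (mul_pos h4 (by exact_mod_cast hn)) hcap
    exact_mod_cast this
  obtain ⟨v, hv⟩ := Set.nonempty_of_ncard_ne_zero hcap0.ne'
  obtain ⟨hv1, e, he, f, hf, hef⟩ := hv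
  have hv0 : e * f ≠ 0 := by
    obtain ⟨w, -, hw⟩ := Finset.mem_image.1 (Finset.mem_coe.1 hv1)
    have h : e * f = v := hef
    omega
  have he0 : e ≠ 0 := left_ne_zero_of_mul hv0
  have hf0 : f ≠ 0 := right_ne_zero_of_mul hv0
  have hEfin : E.Finite := by
    have h1 : ((· * f) '' E).Finite :=
      hfin.subset (by rintro _ ⟨x, hx, rfl⟩; exact Set.mul_mem_mul hx hf)
    exact h1.of_finite_image (fun a _ b _ h =>
      Nat.eq_of_mul_eq_mul_right (Nat.pos_of_ne_zero hf0) h)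
  have hFfin : F.Finite := by
    have h1 : ((e * ·) '' F).Finite :=
      hfin.subset (by rintro _ ⟨x, hx, rfl⟩; exact Set.mul_mem_mul he hx)
    exact h1.of_finite_image (fun a _ b _ h =>
      Nat.eq_of_mul_eq_mul_left (Nat.pos_of_ne_zero he0) h)
  lift E to Finset ℕ using hEfin
  lift F to Finset ℕ using hFfin
  apply hA E F
  have e1 : ((E : Set ℕ) * (F : Set ℕ)) = ((E * F : Finset ℕ) : Set ℕ) := by
    rw [Finset.coe_mul]
  rw [e1] at hEF hcap
  rw [← Finset.coe_inter, Set.ncard_coe_finset] at hcap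
  rw [Set.ncard_coe_finset] at hEF
  refine ⟨?_, ?_, hEF, hcap⟩
  · rcases hE with h | h
    · exact absurd (Finset.finite_toSet E) h
    · rwa [Set.ncard_coe_finset] at h
  · rcases hF with h | h
    · exact absurd (Finset.finite_toSet F) h
    · rwa [Set.ncard_coe_finset] at h

end Pool.Agent.Results.MP_fd999f_co.NoCapture
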